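import Pool.Agent.Run7.h307.LR.Multi2

/-!
# Level repulsion for random conformal metrics on closed surfaces

`(M, g)` is a closed surface with a continuous Riemannian metric, for instance of negative curvature.
For a continuous function `φ` and the metric `exp φ · g` let `0 = E 0 ≤ E 1 ≤ ...` be the eigenvalues
of the Laplacian, `u 0, u 1, ...` an orthonormal basis of eigenfunctions and `x k = area / (4 π) · E k`
the unfolded levels (mean spacing one). `φ` is random; its law `P` is the law of `ψ + t h n`, with `t`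
uniform on `[0, 1]` and independent of the random function `ψ`, for every `n` of a sequence of
continuous functions with `∑ ‖h n‖ < ∞` (for instance `φ = φ₀ + ∑ t n · h n` with independent uniform
`t n` and any independent `φ₀`). The overlap of two functions is `⟨v, w⟩ = ∑ n, (∫ h n · v · w)²`, and
`V ≤ ∑ ‖h n‖²` is the expectation of the sum of the variances of the functions `h n` on the surface.

* Sum rule, for **every** level `j → ∞`: the expectation of
  `∑_{i ≤ j < k, E_i > 0} ⟨u_i, u_k⟩ (E_k + E_i) / (E_k - E_i)` is at most `j (V + o(1))`.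
* Level repulsion, for every level `j → ∞`: with probability at least `1 - V / (2 c) - o(1)` **all**
  pairs of levels `i ≤ j < k` satisfy `x_k - x_i ≥ ⟨u_i, u_k⟩ / c`.

Nothing is averaged over the levels. The proof: on a line `φ + t h` the function
`-∑_{0 < E_i, i ≤ j} log E_i` of `t` is convex up to a bounded term, its second derivative is at least
the sum of the sum rule, and by Weyl's law its slope changes by at most `j (∫ Var(h) dt + o(1))`.
-/

set_option autoImplicit false

open Set Filter Topology MeasureTheory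
open scoped Real ContDiff ENNReal
open Pool.Agent.Y262.QE

noncomputable section

namespace Pool.Agent.Results.MP_a825e8_mp.LevelRepulsion

/-- `u 0, u 1, ...` is an orthonormal basis of `L² (μ)` which consists of eigenfunctions of the
Laplacian of the surface `D` with the area `μ`; the eigenvalues `E 0 ≤ E 1 ≤ ...` are ordered -/
structure IsEigenbasis {M : Type} [MeasurableSpace M] (D : Data M) (μ : Measure M)
    (u : ℕ → M → ℝ) (E : ℕ → ℝ) : Prop where
  eig : ∀ j, D.IsEig μ (E j) (u j)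
  mono : Monotone E
  orth : ∀ i j, ∫ x, u i x * u j x ∂μ = if i = j then 1 else 0
  total : ∀ f : M → ℝ, MemLp f 2 μ → (∀ j, ∫ x, f x * u j x ∂μ = 0) → f =ᵐ[μ] 0

/-- the surface with the metric `exp φ · g` -/
def surf {M : Type} [TopologicalSpace M] (D : Data M) (φ : C(M, ℝ)) : Data M :=
  D.conf fun x => Real.exp (φ x)

/-- the area of the metric `exp φ · g` -/
def area {M : Type} [TopologicalSpace M] [MeasurableSpace M] (μ : Measure M) (φ : C(M, ℝ)) :
    Measure M :=
  wm μ fun x => Real.exp (φ x)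

/-- the mean value of `f` on the surface with the metric `exp φ · g` -/
def mean {M : Type} [TopologicalSpace M] [MeasurableSpace M] (μ : Measure M) (φ f : C(M, ℝ)) : ℝ :=
  (∫ x, f x ∂(area μ φ)) / (area μ φ).real univ

/-- the variance of `f` on the surface with the metric `exp φ · g` -/
def variance {M : Type} [TopologicalSpace M] [MeasurableSpace M] (μ : Measure M) (φ f : C(M, ℝ)) :
    ℝ :=
  mean μ φ (f * f) - mean μ φ f ^ 2

/-- the expectation of the sum of the variances of the functions `h n` -/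
def totalVariance {M : Type} [TopologicalSpace M] [MeasurableSpace M] [MeasurableSpace C(M, ℝ)]
    (μ : Measure M) (P : Measure C(M, ℝ)) (h : ℕ → C(M, ℝ)) : ℝ :=
  ∑' n, ∫ φ, variance μ φ (h n) ∂P

/-- `P` is the law of `ψ + t h`, where `ψ` is a random function and `t` is uniform on `[0, 1]` and
independent of `ψ` -/
def IsUniformAlong {M : Type} [TopologicalSpace M] [MeasurableSpace C(M, ℝ)]
    (P : Measure C(M, ℝ)) (h : C(M, ℝ)) : Prop :=
  ∃ P' : Measure C(M, ℝ), IsProbabilityMeasure P' ∧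
    P = (P'.prod (volume.restrict (Icc (0 : ℝ) 1))).map fun p => p.1 + p.2 • h

/-- the unfolded level of the eigenvalue `E`: area times eigenvalue divided by `4 π` -/
def level {M : Type} [TopologicalSpace M] [MeasurableSpace M] (μ : Measure M) (φ : C(M, ℝ))
    (E : ℝ) : ℝ :=
  (area μ φ).real univ / (4 * π) * E

/-- the overlap `∑ n, (∫ h n · v · w)²` of the functions `v`, `w` for the metric `exp φ · g` -/
def overlap {M : Type} [TopologicalSpace M] [MeasurableSpace M] (μ : Measure M)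
    (h : ℕ → C(M, ℝ)) (φ : C(M, ℝ)) (v w : M → ℝ) : ℝ≥0∞ :=
  ∑' n, ENNReal.ofReal ((∫ x, h n x * (v x * w x) ∂(area μ φ)) ^ 2)

open Classical in
/-- `∑_{i ≤ j < k, E_i > 0} ⟨u_i, u_k⟩ (E_k + E_i) / (E_k - E_i)` with the overlaps `⟨u_i, u_k⟩`; the
term of a pair of equal levels is zero for vanishing overlap and infinite otherwise -/
def pairSum {M : Type} [TopologicalSpace M] [MeasurableSpace M] (μ : Measure M)
    (h : ℕ → C(M, ℝ)) (φ : C(M, ℝ)) (u : ℕ → M → ℝ) (E : ℕ → ℝ) (j : ℕ) : ℝ≥0∞ :=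
  ∑ i ∈ Finset.range (j + 1), ∑' k, if j < k ∧ 0 < E i then
    overlap μ h φ (u i) (u k) * ENNReal.ofReal (E k + E i) / ENNReal.ofReal (E k - E i) else 0

/-- all pairs of levels `i ≤ j < k` of the metric `exp φ · g` repel each other: for all bases of
eigenfunctions the unfolded levels satisfy `c (x_k - x_i) ≥ ⟨u_i, u_k⟩` -/
def Repel {M : Type} [TopologicalSpace M] [MeasurableSpace M] (D : Data M) (μ : Measure M)
    (h : ℕ → C(M, ℝ)) (c : ℝ) (j : ℕ) (φ : C(M, ℝ)) : Prop :=
  ∀ (u : ℕ → M → ℝ) (E : ℕ → ℝ), IsEigenbasis (surf D φ) (area μ φ) u E →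
    ∀ i k, i ≤ j → j < k → overlap μ h φ (u i) (u k) ≤
      ENNReal.ofReal (c * (level μ φ (E k) - level μ φ (E i)))

theorem result (M : Type) [MetricSpace M] [CompactSpace M] [MeasurableSpace M] [BorelSpace M]
    [Nonempty M] [MeasurableSpace C(M, ℝ)] [BorelSpace C(M, ℝ)] (μ : Measure M) (D : Data M)
    (hD : D.IsSurf μ) (h : ℕ → C(M, ℝ)) (hs : Summable fun n => ‖h n‖)
    (P : Measure C(M, ℝ)) [IsProbabilityMeasure P] (hP : ∀ n, IsUniformAlong P (h n)) :
    -- the metrics `exp φ · g` are closed surfaces and have bases of eigenfunctions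
    (∀ φ : C(M, ℝ), (surf D φ).IsSurf (area μ φ) ∧
      ∃ u E, IsEigenbasis (surf D φ) (area μ φ) u E) ∧
    totalVariance μ P h ≤ ∑' n, ‖h n‖ ^ 2 ∧
    -- sum rule
    (∀ η : ℝ, 0 < η → ∀ᶠ j : ℕ in atTop, ∃ q : C(M, ℝ) → ℝ≥0∞, Measurable q ∧
      (∀ φ u E, IsEigenbasis (surf D φ) (area μ φ) u E → pairSum μ h φ u E j ≤ q φ) ∧
      ∫⁻ φ, q φ ∂P ≤ ENNReal.ofReal (j * (totalVariance μ P h + η))) ∧
    -- level repulsion
    ∀ c η : ℝ, 0 < c → 0 < η → ∀ᶠ j : ℕ in atTop,
      P {φ : C(M, ℝ) | ¬ Repel D μ h c j φ} ≤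
        ENNReal.ofReal (totalVariance μ P h / (2 * c) + η) := by
  obtain ⟨hf, -⟩ := tFin M μ D hD
  have := hf
  obtain ⟨i, a, hSf, hi, ha⟩ := Pool.Agent.Y264.QR.tPackF M μ D hD inferInstance
  obtain ⟨b, hB, hF, hA, hexp, -⟩ := Pool.Agent.Y264.QR.tFm M μ (Pool.Agent.Y264.QR.HF D μ) i a hSf
  have hW := Pool.Agent.Y264.QR.tWl M μ D hD inferInstance i a b hSf hi ha hB
  have : CompleteSpace (Pool.Agent.Y264.QR.HF D μ) :=
    (Submodule.isClosed_topologicalClosure _).completeSpace_coe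
  have hex : ∀ φ, ∃ (e : ℕ → Pool.Agent.Y264.QR.HF D μ) (E : ℕ → ℝ), Eg a (b φ) e E := fun φ =>
    tSp (Pool.Agent.Y264.QR.HF D μ) a (b φ) (hF φ)
  choose P' hP1 hP2 using hP
  have hm : ∀ φ : C(M, ℝ), Measurable fun x => Real.exp (φ x) := fun φ =>
    (Real.continuous_exp.comp φ.continuous).measurable
  have harea : ∀ φ : C(M, ℝ), (area μ φ).real univ = ∫ x, Real.exp (φ x) ∂μ := by
    intro φ
    have h5 : (area μ φ).real univ = ∫ x, (1 : ℝ) ∂(wm μ fun x => Real.exp (φ x)) := by
      simp [area]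
    rw [h5, integral_wm μ _ (hm φ) fun x => (Real.exp_pos _).le]
    simp
  have hmean : ∀ φ f : C(M, ℝ), mean μ φ f = Pool.Agent.Y264.QR.avg μ f φ := fun φ f =>
    (Pool.Agent.Y264.QR.avg_eq μ f φ).symm
  have hvar : ∀ φ f : C(M, ℝ), variance μ φ f = Pool.Agent.Run7.h307.LR.var μ f φ := by
    intro φ f
    unfold variance
    rw [hmean, hmean]
    rfl
  have htot : totalVariance μ P h = ∑' n, ∫ φ, Pool.Agent.Run7.h307.LR.var μ (h n) φ ∂P := by
    unfold totalVariance
    simp only [hvar]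
  have hel : ∀ (φ : C(M, ℝ)) (u : ℕ → M → ℝ) (e : ℕ → Pool.Agent.Y264.QR.HF D μ),
      (∀ j, (i (e j) : M → ℝ) =ᵐ[μ] u j) → ∀ l k, overlap μ h φ (u l) (u k) =
        Pool.Agent.Run7.h307.LR.ov i h φ (e l) (e k) := by
    intro φ u e he l k
    unfold overlap area Pool.Agent.Run7.h307.LR.ov Pool.Agent.Run7.h307.LR.wf
    refine tsum_congr fun n => ?_
    rw [integral_wm μ _ (hm φ) (fun x => (Real.exp_pos _).le)]
    congr 2
    refine integral_congr_ae ?_
    filter_upwards [he l, he k] with x h1 h2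
    rw [h1, h2]
    simp only [ContinuousMap.mul_apply, Pool.Agent.Run7.h307.LR.cexp_apply]
    ring
  have hbr : ∀ (φ : C(M, ℝ)) (u : ℕ → M → ℝ) (E : ℕ → ℝ),
      IsEigenbasis (surf D φ) (area μ φ) u E → ∃ e : ℕ → Pool.Agent.Y264.QR.HF D μ,
        (∀ l k, overlap μ h φ (u l) (u k) = Pool.Agent.Run7.h307.LR.ov i h φ (e l) (e k)) ∧
        Eg a (b φ) e E := by
    intro φ u E hu
    obtain ⟨e, he1, he2⟩ := Pool.Agent.Y264.QR.tBr M μ D hD i a b hSf hi ha hB hF φ u E
      ⟨hu.eig, hu.mono, hu.orth, hu.total⟩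
    exact ⟨e, hel φ u e he1, he2⟩
  refine ⟨fun φ => ⟨(tConf M μ D hD _
    (Real.continuous_exp.comp φ.continuous) fun x => Real.exp_pos _).1, ?_⟩, ?_, ?_, ?_⟩
  · obtain ⟨u, E, h⟩ := Pool.Agent.Y264.QR.tEx M μ D hD inferInstance φ
    exact ⟨u, E, h.eig, h.mono, h.orth, h.total⟩
  · rw [htot]
    have hs2 : Summable fun n => ‖h n‖ ^ 2 := by
      refine Summable.of_nonneg_of_le (fun n => sq_nonneg _) (fun n => ?_)
        (hs.mul_left (∑' n, ‖h n‖))
      rw [pow_two]
      exact mul_le_mul_of_nonneg_right (hs.le_tsum n fun _ _ => norm_nonneg _) (norm_nonneg _)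
    have hle : ∀ n, ∫ φ, Pool.Agent.Run7.h307.LR.var μ (h n) φ ∂P ≤ ‖h n‖ ^ 2 := by
      intro n
      have h1 : ∀ φ, Pool.Agent.Run7.h307.LR.var μ (h n) φ ≤ ‖h n‖ ^ 2 := by
        intro φ
        have h2 := (abs_le.1 (Pool.Agent.Y155.QR.avg_le μ hA φ (h n * h n))).2
        have h3 : ‖h n * h n‖ ≤ ‖h n‖ ^ 2 := by
          rw [pow_two]
          exact norm_mul_le (h n) (h n)
        have h4 : Pool.Agent.Run7.h307.LR.var μ (h n) φ =
          Pool.Agent.Y264.QR.avg μ (h n * h n) φ - Pool.Agent.Y264.QR.avg μ (h n) φ ^ 2 := rfl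
        rw [h4]
        linarith [sq_nonneg (Pool.Agent.Y264.QR.avg μ (h n) φ)]
      have hint : Integrable (fun φ => Pool.Agent.Run7.h307.LR.var μ (h n) φ) P :=
        Integrable.of_bound (Pool.Agent.Run7.h307.LR.var_cont (h n)).aestronglyMeasurable
          (2 * ‖h n‖ ^ 2) (ae_of_all _ fun φ => by
            rw [Real.norm_eq_abs]
            exact Pool.Agent.Run7.h307.LR.var_le hA (h n) φ)
      refine (integral_mono hint (integrable_const _) h1).trans (le_of_eq ?_)
      simp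
    have hge : ∀ n, 0 ≤ ∫ φ, Pool.Agent.Run7.h307.LR.var μ (h n) φ ∂P := by
      intro n
      obtain ⟨κ, hκ⟩ := Pool.Agent.Run7.h307.LR.exists_zero hSf hB hW
      have := hP1 n
      rw [← Pool.Agent.Run7.h307.LR.u2 hA (hP2 n)]
      exact Pool.Agent.Run7.h307.LR.DD_nonneg hSf hB hW hex hκ (P' n) (h n) zero_le_one
    exact Summable.tsum_le_tsum hle (Summable.of_nonneg_of_le hge hle hs2) hs2
  · intro η hη
    obtain ⟨κ, hκ⟩ := Pool.Agent.Run7.h307.LR.exists_zero hSf hB hW
    filter_upwards [Pool.Agent.Run7.h307.LR.mbound hSf hB hW hex hκ h hs P P' hP2 hη] with j ⟨hj, hq⟩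
    refine ⟨fun φ => ∑' n, Pool.Agent.Run7.h307.LR.qg a b (h n) κ (j + 1 - κ) φ,
      Measurable.tsum fun n => Pool.Agent.Run7.h307.LR.meas_qg hSf hB hκ (h n) _,
      fun φ u E hu => ?_, ?_⟩
    · obtain ⟨e, he, hE⟩ := hbr φ u E hu
      refine le_trans (le_of_eq ?_) (Pool.Agent.Run7.h307.LR.QM_le hSf hB hκ h φ
        (show j + 1 = κ + (j + 1 - κ) by omega) e E hE)
      unfold pairSum Pool.Agent.Run7.h307.LR.QM
      simp only [he]
    · rw [htot]
      exact hq
  · intro c η hc hη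
    filter_upwards [Pool.Agent.Run7.h307.LR.mevent hSf hB hW hex h hs P P' hP2 hc hη] with j hj
    rw [htot]
    refine le_trans (measure_mono ?_) hj
    intro φ hp
    simp only [mem_ofPred_eq, Repel, not_forall, not_le] at hp
    obtain ⟨u, E, hu, n, k, hn, hk, hlt⟩ := hp
    obtain ⟨e, he, hE⟩ := hbr _ u E hu
    refine ⟨e, E, hE, n, k, hn, hk, ?_⟩
    rw [← he, ← harea]
    exact hlt

end Pool.Agent.Results.MP_a825e8_mp.LevelRepulsion
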